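import Pool.Agent.Lib.MP_9c5702_nt.Defs

/-! The constant in Erdős' conjectured bound is at least `6 / 3^(1/6)`. -/

namespace Pool.Agent.Retired.MP_9c5702_nt.Constant

open Pool.Agent.Lib.MP_9c5702_nt Finset

theorem count (m T : ℕ) (hm : m.Prime) (h2 : 5 ≤ m) (hT : T ^ 3 < 3 * m ^ 3) :
    6 * (T - 1) ≤ r33 (729 * m ^ 12) := by
  let X : ℕ → ℕ := fun t => t ^ 4
  let Y : ℕ → ℕ := fun t => 9 * t * m ^ 3 - t ^ 4
  let Z : ℕ → ℕ := fun t => 9 * m ^ 4 - 3 * t ^ 3 * m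
  let A := (Icc 1 T).erase m
  have hA : ∀ t ∈ A, 1 ≤ t ∧ t ^ 3 < 3 * m ^ 3 ∧ ¬ m ∣ t := by
    intro t ht
    obtain ⟨h1, h3⟩ := mem_erase.1 ht
    obtain ⟨h3, h4⟩ := mem_Icc.1 h3
    have h5 := (Nat.pow_le_pow_left h4 3).trans_lt hT
    refine ⟨h3, h5, ?_⟩
    rintro ⟨k, rfl⟩
    have h6 : k ^ 3 < 3 := by
      by_contra h
      nlinarith [pow_pos hm.pos 3, mul_pow m k 3]
    have h7 : k < 2 := lt_of_pow_lt_pow_left₀ 3 (by norm_num) (by omega)
    interval_cases k <;> simp_all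
  have hY : ∀ t ∈ A, Y t + t ^ 4 = 9 * t * m ^ 3 ∧ 1 ≤ Y t := by
    intro t ht
    obtain ⟨h1, h3, -⟩ := hA t ht
    have : t ^ 4 < 9 * t * m ^ 3 := by
      nlinarith [mul_lt_mul_of_pos_left h3 (show 0 < t from h1), Nat.zero_le (t * m ^ 3)]
    simp only [Y]
    omega
  have hZ : ∀ t ∈ A, Z t + 3 * t ^ 3 * m = 9 * m ^ 4 ∧ 1 ≤ Z t := by
    intro t ht
    obtain ⟨h1, h3, -⟩ := hA t ht
    have : 3 * t ^ 3 * m < 9 * m ^ 4 := by nlinarith
    simp only [Z]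
    omega
  have hsum : ∀ t ∈ A, X t ^ 3 + Y t ^ 3 + Z t ^ 3 = 729 * m ^ 12 := by
    intro t ht
    have h1 : (Y t : ℤ) = 9 * t * m ^ 3 - t ^ 4 := by
      have := (hY t ht).1
      zify at this
      linarith
    have h3 : (Z t : ℤ) = 9 * m ^ 4 - 3 * t ^ 3 * m := by
      have := (hZ t ht).1
      zify at this
      linarith
    zify
    rw [h1, h3]
    simp only [X]
    push_cast
    ring
  have dX : ∀ t ∈ A, ¬ m ∣ X t := fun t ht h => (hA t ht).2.2 (hm.dvd_of_dvd_pow h)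
  have dm : ∀ t, m ∣ 9 * t * m ^ 3 := fun t => (dvd_pow_self m (by norm_num)).mul_left _
  have dY : ∀ t ∈ A, ¬ m ∣ Y t := fun t ht h =>
    dX t ht ((Nat.dvd_add_right h).1 (by rw [(hY t ht).1]; exact dm t))
  have dZ : ∀ t, m ∣ Z t := fun t =>
    Nat.dvd_sub ((dvd_pow_self m (by norm_num)).mul_left _) (dvd_mul_left _ _)
  have iZ : ∀ t ∈ A, ∀ s ∈ A, Z t = Z s → t = s := by
    intro t ht s hs h
    have h1 := (hZ t ht).1
    have h3 := (hZ s hs).1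
    have h4 : 3 * t ^ 3 * m = 3 * s ^ 3 * m := by omega
    have h5 := Nat.eq_of_mul_eq_mul_left (by norm_num) (Nat.eq_of_mul_eq_mul_right hm.pos h4)
    exact Nat.pow_left_injective (by norm_num) h5
  have nXY : ∀ t ∈ A, X t ≠ Y t := by
    intro t ht h
    have h1 : m ∣ 2 * t ^ 4 := by
      rw [two_mul]
      nth_rewrite 1 [show t ^ 4 = Y t from h]
      rw [(hY t ht).1]
      exact dm t
    rcases hm.dvd_mul.1 h1 with h3 | h3
    · have := Nat.le_of_dvd (by norm_num) h3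
      omega
    · exact dX t ht h3
  have nXZ : ∀ t ∈ A, ∀ s, X t ≠ Z s := fun t ht s h => dX t ht (h ▸ dZ s)
  have nYZ : ∀ t ∈ A, ∀ s, Y t ≠ Z s := fun t ht s h => dY t ht (h ▸ dZ s)
  let f : Fin 6 × ℕ → ℕ × ℕ × ℕ := fun q =>
    ![(X q.2, Y q.2, Z q.2), (Y q.2, X q.2, Z q.2), (X q.2, Z q.2, Y q.2), (Y q.2, Z q.2, X q.2),
      (Z q.2, X q.2, Y q.2), (Z q.2, Y q.2, X q.2)] q.1
  have hle : ∀ x n : ℕ, x ^ 3 ≤ n → x ≤ n := fun x n h =>
    (Nat.le_self_pow (by norm_num) x).trans h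
  have hc : 6 * (T - 1) ≤ ((univ : Finset (Fin 6)) ×ˢ A).card := by
    have := pred_card_le_card_erase (s := Icc 1 T) (a := m)
    simp only [card_product, card_univ, Fintype.card_fin, Nat.card_Icc] at this ⊢
    exact Nat.mul_le_mul_left _ (by simpa using this)
  refine hc.trans (card_le_card_of_injOn f ?_ ?_)
  · rintro ⟨i, t⟩ hq
    have ht : t ∈ A := (mem_product.1 hq).2
    have h1 := hsum t ht
    have h3 := (hY t ht).2
    have h4 := (hZ t ht).2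
    have h5 : 1 ≤ X t := Nat.one_le_pow _ _ (hA t ht).1
    have h6 := hle (X t) (729 * m ^ 12) (by omega)
    have h7 := hle (Y t) (729 * m ^ 12) (by omega)
    have h8 := hle (Z t) (729 * m ^ 12) (by omega)
    simp only [coe_filter, mem_product, mem_Icc, Set.mem_ofPred_eq]
    fin_cases i <;> simp only [f] <;> simp <;> omega
  · rintro ⟨i, t⟩ hq ⟨j, s⟩ hr h
    have ht : t ∈ A := (mem_product.1 hq).2
    have hs : s ∈ A := (mem_product.1 hr).2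
    have a1 := nXZ t ht s
    have a2 := nYZ t ht s
    have a3 := (nXZ s hs t).symm
    have a4 := (nYZ s hs t).symm
    have a5 : Z t = Z s → t = s := iZ t ht s hs
    have a6 : t = s → X t ≠ Y s := fun e => e ▸ nXY t ht
    have a7 : t = s → Y t ≠ X s := fun e => e ▸ (nXY t ht).symm
    fin_cases i <;> fin_cases j <;> simp only [f] at h <;> simp at h ⊢ <;> tauto

theorem result (c : ℝ) (hc : c < 6 * (3 : ℝ) ^ (-(1 : ℝ) / 6)) (N : ℕ) :
    ∃ n : ℕ, N ≤ n ∧ c * (n : ℝ) ^ ((1 : ℝ) / 12) < r33 n := by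
  set a : ℝ := (3 : ℝ) ^ ((1 : ℝ) / 6) with ha
  have ha0 : 0 < a := by positivity
  have ha6 : a ^ 6 = 3 := by
    rw [ha, ← Real.rpow_natCast, ← Real.rpow_mul (by norm_num)]
    norm_num
  rw [neg_div, Real.rpow_neg (by norm_num), ← ha, ← div_eq_mul_inv, lt_div_iff₀ ha0] at hc
  have hδ : 0 < (6 - c * a) * a ^ 2 := by positivity
  obtain ⟨M, hM⟩ := exists_nat_gt (12 / ((6 - c * a) * a ^ 2))
  obtain ⟨m, hm1, hm⟩ := Nat.exists_infinite_primes (M + N + 5)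
  have hm0 : (0 : ℝ) < m := by exact_mod_cast hm.pos
  refine ⟨729 * m ^ 12, ?_, ?_⟩
  · have := Nat.le_self_pow (by norm_num : 12 ≠ 0) m
    omega
  have h1 : ((729 * m ^ 12 : ℕ) : ℝ) ^ ((1 : ℝ) / 12) = a ^ 3 * m := by
    have : ((729 * m ^ 12 : ℕ) : ℝ) = (a ^ 3 * m) ^ 12 := by
      rw [mul_pow, ← pow_mul, show 3 * 12 = 6 * 6 by norm_num, pow_mul, ha6]
      push_cast
      norm_num
    rw [this, ← Real.rpow_natCast, ← Real.rpow_mul (by positivity)]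
    norm_num
  have hpos : 0 < a ^ 2 * m := by positivity
  set T := ⌈a ^ 2 * m⌉₊ - 1 with hT
  have hT1 : 1 ≤ ⌈a ^ 2 * m⌉₊ := Nat.ceil_pos.2 hpos
  have hT2 : (T : ℝ) = ⌈a ^ 2 * m⌉₊ - 1 := by
    rw [hT, Nat.cast_sub hT1, Nat.cast_one]
  have hT3 : (T : ℝ) < a ^ 2 * m := by
    have := Nat.ceil_lt_add_one hpos.le
    linarith
  have hT4 : T ^ 3 < 3 * m ^ 3 := by
    have h2 : (T : ℝ) ^ 3 < (a ^ 2 * m) ^ 3 := by gcongr
    rw [mul_pow, ← pow_mul, ha6] at h2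
    exact_mod_cast h2
  have h2 : (6 : ℝ) * (T - 1) ≤ r33 (729 * m ^ 12) := by
    have h3 : 6 * T ≤ r33 (729 * m ^ 12) + 6 := by
      have := count m T hm (by omega) hT4
      omega
    have h4 : (6 : ℝ) * T ≤ r33 (729 * m ^ 12) + 6 := by exact_mod_cast h3
    linarith
  have h3 : (M : ℝ) ≤ m := by exact_mod_cast (by omega : M ≤ m)
  rw [div_lt_iff₀ hδ] at hM
  have h4 := Nat.le_ceil (a ^ 2 * m)
  have h5 := mul_le_mul_of_nonneg_right h3 hδ.le
  rw [h1]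
  nlinarith

end Pool.Agent.Retired.MP_9c5702_nt.Constant
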